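import Mathlib

/-!
# Quasi-identities, quasivarieties, Levi classes, first-order language of groups
-/

set_option autoImplicit false

namespace Pool.Agent.W499.Levi

/-- The quasi-identity `p = 1` for all `p` in `prem` implies `concl = 1`
holds in the group `K`. -/
def QHolds (K : Type) [Group K] (n : ℕ) (prem : List (FreeGroup (Fin n)))
    (concl : FreeGroup (Fin n)) : Prop :=
  ∀ f : Fin n → K, (∀ p ∈ prem, FreeGroup.lift f p = 1) → FreeGroup.lift f concl = 1

/-- `K` belongs to the quasivariety generated by `H`: every quasi-identity that holds in `H`
holds in `K`. -/
def InQ (H K : Type) [Group H] [Group K] : Prop :=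
  ∀ (n : ℕ) (prem : List (FreeGroup (Fin n))) (concl : FreeGroup (Fin n)),
    QHolds H n prem concl → QHolds K n prem concl

/-- `G` belongs to the Levi class `L(M)`, where `M` is the quasivariety generated by `H`:
the normal closure of every element of `G` belongs to `M`. -/
def InLevi (H G : Type) [Group H] [Group G] : Prop :=
  ∀ a : G, InQ H (Subgroup.normalClosure ({a} : Set G))

/-- The function symbols of the language of groups. -/
inductive GrpFunc : ℕ → Type
  | one : GrpFunc 0
  | inv : GrpFunc 1
  | mul : GrpFunc 2

/-- The first-order language of groups: a constant, a unary and a binary function symbol,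
no relation symbols. -/
def grpLang : FirstOrder.Language := ⟨GrpFunc, fun _ => Empty⟩

/-- Every group is a structure for the language of groups. -/
instance grpStr (G : Type) [Group G] : grpLang.Structure G where
  funMap := fun {n} (f : GrpFunc n) =>
    match n, f with
    | _, GrpFunc.one => fun _ => (1 : G)
    | _, GrpFunc.inv => fun x => (x 0)⁻¹
    | _, GrpFunc.mul => fun x => x 0 * x 1
  RelMap := fun {_} (r : Empty) => r.elim

/-- The Levi class `L(M)`, `M` the quasivariety generated by `H`, is finitely axiomatizable:
it is the class of groups satisfying some finite set of first-order sentences in the language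
of groups. -/
def LeviFinAx (H : Type) [Group H] : Prop :=
  ∃ T : Set grpLang.Sentence, T.Finite ∧
    ∀ (G : Type) [Group G], (∀ φ ∈ T, FirstOrder.Language.Sentence.Realize G φ) ↔ InLevi H G

end Pool.Agent.W499.Levi
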