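import Mathlib

/-!
# Generalised Heisenberg groups with an inverting involution

For a bilinear map `m : A x B -> Z` over `ZMod 3` the group `MG m` consists of the matrices
`[[1, a, z], [0, e, b], [0, 0, 1]]` with `e = 1` or `e = -1`.
-/

set_option autoImplicit false

namespace Pool.Agent.W499.Levi

abbrev k3 : Type := ZMod 3

variable {A B Z : Type} [AddCommGroup A] [Module k3 A] [AddCommGroup B] [Module k3 B]
  [AddCommGroup Z] [Module k3 Z]

/-- The underlying set of the group attached to a bilinear map. -/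
@[ext] structure MG (m : A →ₗ[k3] B →ₗ[k3] Z) : Type where
  a : A
  b : B
  z : Z
  e : k3ˣ

namespace MG

variable {m : A →ₗ[k3] B →ₗ[k3] Z}

instance : Mul (MG m) :=
  ⟨fun x y => ⟨y.a + y.e • x.a, x.b + x.e • y.b, x.z + y.z + m x.a y.b, x.e * y.e⟩⟩

instance : One (MG m) := ⟨⟨0, 0, 0, 1⟩⟩

instance : Inv (MG m) :=
  ⟨fun x => ⟨-(x.e⁻¹ • x.a), -(x.e⁻¹ • x.b), -x.z + m x.a (x.e⁻¹ • x.b), x.e⁻¹⟩⟩

@[simp] lemma mul_a (x y : MG m) : (x * y).a = y.a + y.e • x.a := rfl
@[simp] lemma mul_b (x y : MG m) : (x * y).b = x.b + x.e • y.b := rfl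
@[simp] lemma mul_z (x y : MG m) : (x * y).z = x.z + y.z + m x.a y.b := rfl
@[simp] lemma mul_e (x y : MG m) : (x * y).e = x.e * y.e := rfl
@[simp] lemma one_a : (1 : MG m).a = 0 := rfl
@[simp] lemma one_b : (1 : MG m).b = 0 := rfl
@[simp] lemma one_z : (1 : MG m).z = 0 := rfl
@[simp] lemma one_e : (1 : MG m).e = 1 := rfl
@[simp] lemma inv_a (x : MG m) : (x⁻¹).a = -(x.e⁻¹ • x.a) := rfl
@[simp] lemma inv_b (x : MG m) : (x⁻¹).b = -(x.e⁻¹ • x.b) := rfl
@[simp] lemma inv_z (x : MG m) : (x⁻¹).z = -x.z + m x.a (x.e⁻¹ • x.b) := rfl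
@[simp] lemma inv_e (x : MG m) : (x⁻¹).e = x.e⁻¹ := rfl

lemma msmul1 (e : k3ˣ) (x : A) (y : B) : m (e • x) y = e • m x y := by
  simp only [Units.smul_def, map_smul, LinearMap.smul_apply]

lemma msmul2 (e : k3ˣ) (x : A) (y : B) : m x (e • y) = e • m x y := by
  simp only [Units.smul_def, map_smul]

instance : Group (MG m) :=
  Group.ofLeftAxioms
    (by
      intro x y w
      ext
      · simp only [mul_a, mul_e, smul_add, smul_smul]
        rw [mul_comm w.e y.e]
        abel
      · simp only [mul_b, mul_e, smul_add, smul_smul]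
        abel
      · simp only [mul_z, mul_a, mul_b, map_add, LinearMap.add_apply, msmul1, msmul2]
        abel
      · simp only [mul_e, mul_assoc])
    (by
      intro x
      ext
      · simp
      · simp
      · simp
      · simp)
    (by
      intro x
      ext
      · simp
      · simp
      · simp
      · simp)

/-- The componentwise map given by three linear functionals. -/
def toH (f : A →ₗ[k3] k3) (g : B →ₗ[k3] k3) (ψ : Z →ₗ[k3] k3) (x : MG m) :
    MG (LinearMap.mul k3 k3) :=
  ⟨f x.a, g x.b, ψ x.z, x.e⟩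

/-- The elements whose `a`-component lies in `U`. -/
def TU (m : A →ₗ[k3] B →ₗ[k3] Z) (U : Submodule k3 A) : Subgroup (MG m) where
  carrier := {x | x.a ∈ U}
  mul_mem' := by
    intro x y hx hy
    exact U.add_mem hy (by rw [Units.smul_def]; exact U.smul_mem _ hx)
  one_mem' := U.zero_mem
  inv_mem' := by
    intro x hx
    exact U.neg_mem (by rw [Units.smul_def]; exact U.smul_mem _ hx)

/-- The homomorphism to the model group, defined on `TU`. -/
def homH (U : Submodule k3 A) (f : A →ₗ[k3] k3) (g : B →ₗ[k3] k3) (ψ : Z →ₗ[k3] k3)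
    (h : ∀ a ∈ U, ∀ b, ψ (m a b) = f a * g b) :
    TU m U →* MG (LinearMap.mul k3 k3) where
  toFun x := toH f g ψ x.1
  map_one' := by
    ext <;> simp [toH]
  map_mul' := by
    rintro ⟨x, hx⟩ ⟨y, hy⟩
    ext
    · simp [toH, Units.smul_def]
    · simp [toH, Units.smul_def]
    · simp only [toH, Subgroup.coe_mul, mul_z, map_add, LinearMap.mul_apply']
      rw [h _ hx]
    · simp [toH]

end MG

end Pool.Agent.W499.Levi
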