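import Mathlib
import Pool.Agent.W499.Levi.Defs
import Pool.Agent.W499.Levi.Grp

set_option autoImplicit false

namespace Pool.Agent.W499.Levi

variable {A B Z : Type} [AddCommGroup A] [Module k3 A] [AddCommGroup B] [Module k3 B]
  [AddCommGroup Z] [Module k3 Z]

/-- `m` is injective on tensors of rank less than `L` in the first variable. -/
def TInj (m : A →ₗ[k3] B →ₗ[k3] Z) (L : ℕ) : Prop :=
  ∀ r : ℕ, r < L → ∀ u : Fin r → A, LinearIndependent k3 u → ∀ v : Fin r → B,
    ∑ i, m (u i) (v i) = 0 → v = 0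

/-- Separation of a nonzero element of `Z`. -/
lemma sepZ {m : A →ₗ[k3] B →ₗ[k3] Z} {L : ℕ} (hm : TInj m L) (U : Submodule k3 A)
    [FiniteDimensional k3 U] (hU : Module.finrank k3 U < L) {z : Z} (hz : z ≠ 0) :
    ∃ (f : A →ₗ[k3] k3) (g : B →ₗ[k3] k3) (ψ : Z →ₗ[k3] k3),
      (∀ a ∈ U, ∀ b, ψ (m a b) = f a * g b) ∧ ψ z ≠ 0 := by
  classical
  let bU := Module.finBasis k3 U
  let Θ : (Fin (Module.finrank k3 U) → B) →ₗ[k3] Z :=
    ∑ i, (m (bU i : A)) ∘ₗ LinearMap.proj i
  have hΘ : ∀ v, Θ v = ∑ i, m (bU i : A) (v i) := by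
    intro v
    simp [Θ]
  have hli : LinearIndependent k3 (fun i => (bU i : A)) := by
    have := bU.linearIndependent
    exact this.map' U.subtype (Submodule.ker_subtype U)
  have hker : LinearMap.ker Θ = ⊥ := by
    rw [LinearMap.ker_eq_bot']
    intro v hv
    rw [hΘ] at hv
    exact hm _ hU _ hli v hv
  have hexp : ∀ a (ha : a ∈ U) (b : B), m a b = Θ (fun i => (bU.repr ⟨a, ha⟩ i) • b) := by
    intro a ha b
    rw [hΘ]
    have h1 : a = ∑ i, (bU.repr ⟨a, ha⟩ i) • (bU i : A) := by
      have h2 : ((∑ i, bU.repr ⟨a, ha⟩ i • bU i : U) : A) = a :=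
        congrArg Subtype.val (bU.sum_repr ⟨a, ha⟩)
      calc a = ((∑ i, bU.repr ⟨a, ha⟩ i • bU i : U) : A) := h2.symm
        _ = _ := by simp only [Submodule.coe_sum, Submodule.coe_smul]
    conv_lhs => rw [h1]
    simp [map_sum]
  by_cases hr : z ∈ LinearMap.range Θ
  · obtain ⟨v, rfl⟩ := hr
    have hv : v ≠ 0 := by
      rintro rfl
      exact hz (map_zero _)
    obtain ⟨i0, hi0⟩ := Function.ne_iff.mp hv
    have : ∃ g : B →ₗ[k3] k3, g (v i0) ≠ 0 := by
      by_contra hcon
      push Not at hcon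
      exact hi0 ((Module.forall_dual_apply_eq_zero_iff k3 (v i0)).mp hcon)
    obtain ⟨g, hg⟩ := this
    obtain ⟨Ψ, hΨ⟩ := LinearMap.exists_leftInverse_of_injective Θ hker
    obtain ⟨f, hf⟩ := LinearMap.exists_extend (p := U) (bU.coord i0)
    refine ⟨f, g, g ∘ₗ LinearMap.proj i0 ∘ₗ Ψ, ?_, ?_⟩
    · intro a ha b
      have h1 : Ψ (Θ (fun i => (bU.repr ⟨a, ha⟩ i) • b)) = fun i => (bU.repr ⟨a, ha⟩ i) • b := by
        exact LinearMap.congr_fun hΨ _
      have h2 : f a = bU.repr ⟨a, ha⟩ i0 := by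
        have := LinearMap.congr_fun hf ⟨a, ha⟩
        simpa using this
      rw [hexp a ha b]
      simp only [LinearMap.comp_apply, h1, LinearMap.proj_apply, map_smul, h2, smul_eq_mul]
    · have h1 : Ψ (Θ v) = v := LinearMap.congr_fun hΨ _
      simpa [LinearMap.comp_apply, h1] using hg
  · obtain ⟨ψ, hψ1, hψ2⟩ := Submodule.exists_le_ker_of_notMem hr
    refine ⟨0, 0, ψ, ?_, hψ1⟩
    intro a ha b
    rw [hexp a ha b]
    have := hψ2 (LinearMap.mem_range_self Θ (fun i => (bU.repr ⟨a, ha⟩ i) • b))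
    rw [LinearMap.mem_ker] at this
    simp [this]

/-- Every nontrivial element of `TU` is separated by a homomorphism to the model group. -/
lemma sepT {m : A →ₗ[k3] B →ₗ[k3] Z} {L : ℕ} (hm : TInj m L) (U : Submodule k3 A)
    [FiniteDimensional k3 U] (hU : Module.finrank k3 U < L) (x : MG.TU m U) (hx : x ≠ 1) :
    ∃ φ : MG.TU m U →* MG (LinearMap.mul k3 k3), φ x ≠ 1 := by
  by_cases he : x.1.e = 1
  · by_cases ha : x.1.a = 0
    · by_cases hb : x.1.b = 0
      · have hz : x.1.z ≠ 0 := by
          intro hz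
          apply hx
          apply Subtype.ext
          ext <;> simp [he, ha, hb, hz]
        obtain ⟨f, g, ψ, h1, h2⟩ := sepZ hm U hU hz
        refine ⟨MG.homH U f g ψ h1, ?_⟩
        intro h
        exact h2 (congrArg MG.z h)
      · have : ∃ g : B →ₗ[k3] k3, g x.1.b ≠ 0 := by
          by_contra hcon
          push Not at hcon
          exact hb ((Module.forall_dual_apply_eq_zero_iff k3 x.1.b).mp hcon)
        obtain ⟨g, hg⟩ := this
        refine ⟨MG.homH U 0 g 0 (by intro a _ b; simp), ?_⟩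
        intro h
        exact hg (congrArg MG.b h)
    · have : ∃ f : A →ₗ[k3] k3, f x.1.a ≠ 0 := by
        by_contra hcon
        push Not at hcon
        exact ha ((Module.forall_dual_apply_eq_zero_iff k3 x.1.a).mp hcon)
      obtain ⟨f, hf⟩ := this
      refine ⟨MG.homH U f 0 0 (by intro a _ b; simp), ?_⟩
      intro h
      exact hf (congrArg MG.a h)
  · refine ⟨MG.homH U 0 0 0 (by intro a _ b; simp), ?_⟩
    intro h
    exact he (congrArg MG.e h)

/-- The group `MG m` satisfies all quasi-identities of the model group in less than `L`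
variables. -/
lemma local_q {m : A →ₗ[k3] B →ₗ[k3] Z} {L : ℕ} (hm : TInj m L) (n : ℕ) (hn : n < L)
    (prem : List (FreeGroup (Fin n))) (concl : FreeGroup (Fin n))
    (hH : QHolds (MG (LinearMap.mul k3 k3)) n prem concl) : QHolds (MG m) n prem concl := by
  classical
  intro f hf
  let U : Submodule k3 A := Submodule.span k3 (Set.range fun i => (f i).a)
  have hfin : FiniteDimensional k3 U := FiniteDimensional.span_of_finite k3 (Set.finite_range _)
  have hU : Module.finrank k3 U < L := by
    have := finrank_range_le_card (R := k3) (fun i => (f i).a)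
    simp only [Fintype.card_fin] at this
    exact lt_of_le_of_lt this hn
  let f' : Fin n → MG.TU m U := fun i => ⟨f i, Submodule.subset_span ⟨i, rfl⟩⟩
  have hsub : ∀ w : FreeGroup (Fin n), ((FreeGroup.lift f' w : MG.TU m U) : MG m)
      = FreeGroup.lift f w := by
    intro w
    have : ((MG.TU m U).subtype.comp (FreeGroup.lift f')) = FreeGroup.lift f := by
      apply FreeGroup.ext_hom
      intro i
      simp [f']
    exact DFunLike.congr_fun this w
  rw [← hsub]
  by_contra hcon
  have hne : FreeGroup.lift f' concl ≠ 1 := by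
    intro h
    apply hcon
    rw [h]
    rfl
  obtain ⟨φ, hφ⟩ := sepT hm U hU _ hne
  apply hφ
  have hcomp : ∀ w : FreeGroup (Fin n), φ (FreeGroup.lift f' w)
      = FreeGroup.lift (fun i => φ (f' i)) w := by
    intro w
    have : (φ.comp (FreeGroup.lift f')) = FreeGroup.lift (fun i => φ (f' i)) := by
      apply FreeGroup.ext_hom
      intro i
      simp
    exact DFunLike.congr_fun this w
  rw [hcomp]
  apply hH
  intro p hp
  rw [← hcomp]
  have h1 : FreeGroup.lift f' p = 1 := by
    apply Subtype.ext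
    rw [hsub, hf p hp]
    rfl
  rw [h1, map_one]

end Pool.Agent.W499.Levi
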