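import Mathlib
import Pool.Agent.W499.Levi.Sep

set_option autoImplicit false

namespace Pool.Agent.W499.Levi

open Finset

/-- Ordered pairs of distinct elements of `Fin h`. -/
abbrev Pr (h : ℕ) : Type := {p : Fin h × Fin h // p.1 ≠ p.2}

/-- Choices of a pair in each of the `L` blocks. -/
abbrev Dl (L h : ℕ) : Type := Fin L → Pr h

abbrev AA (L h : ℕ) : Type := Fin L × Fin h → k3
abbrev BB (L h : ℕ) : Type := Dl L h × Fin L → k3
abbrev TT (L h : ℕ) : Type := Dl L h × Fin L → AA L h

/-- The difference vector of block `l` for the choice `δ`. -/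
def dd {L h : ℕ} (δ : Dl L h) (l : Fin L) : AA L h :=
  Pi.single (l, (δ l).1.1) 1 - Pi.single (l, (δ l).1.2) 1

/-- The map sending the coefficients `c` to the tensor `sum_δ c_δ sum_l d_{δ,l} (x) e_{δ,l}`. -/
def Phi (L h : ℕ) : (Dl L h → k3) →ₗ[k3] TT L h where
  toFun c := fun x => c x.1 • dd x.1 x.2
  map_add' := by
    intro c c'
    funext x
    simp [add_smul]
  map_smul' := by
    intro r c
    funext x
    simp [mul_smul]

/-- The sum of the coordinates. -/
def sumL (L h : ℕ) : (Dl L h → k3) →ₗ[k3] k3 := ∑ δ, LinearMap.proj δ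

lemma sumL_apply {L h : ℕ} (c : Dl L h → k3) : sumL L h c = ∑ δ, c δ := by
  simp [sumL]

/-- The relations. -/
def RR (L h : ℕ) : Submodule k3 (TT L h) := (LinearMap.ker (sumL L h)).map (Phi L h)

abbrev ZZ (L h : ℕ) : Type := TT L h ⧸ RR L h

/-- The bilinear map. -/
def mm (L h : ℕ) : AA L h →ₗ[k3] BB L h →ₗ[k3] ZZ L h :=
  LinearMap.mk₂ k3 (fun a b => (RR L h).mkQ (fun x => b x • a))
    (by
      intro a a' b
      rw [← map_add]
      congr 1
      funext x
      simp [smul_add])
    (by
      intro r a b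
      rw [← map_smul]
      congr 1
      funext x
      simp [smul_comm r])
    (by
      intro a b b'
      rw [← map_add]
      congr 1
      funext x
      simp [add_smul])
    (by
      intro r a b
      rw [← map_smul]
      congr 1
      funext x
      simp [mul_smul])

lemma mm_apply {L h : ℕ} (a : AA L h) (b : BB L h) :
    mm L h a b = (RR L h).mkQ (fun x => b x • a) := rfl

/-- The distinguished element. -/
def z0 {L h : ℕ} (δ : Dl L h) : ZZ L h := (RR L h).mkQ (Phi L h (Pi.single δ 1))

lemma z0_eq {L h : ℕ} (δ δ' : Dl L h) : z0 δ = z0 δ' := by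
  classical
  unfold z0
  rw [← sub_eq_zero, ← map_sub, ← map_sub, Submodule.mkQ_apply, Submodule.Quotient.mk_eq_zero]
  refine Submodule.mem_map_of_mem ?_
  rw [LinearMap.mem_ker, map_sub, sumL_apply, sumL_apply]
  simp

lemma dd_li {L h : ℕ} (δ : Dl L h) : LinearIndependent k3 (dd δ) := by
  classical
  rw [Fintype.linearIndependent_iff]
  intro g hg l
  have h1 := congrFun hg (l, (δ l).1.1)
  rw [Finset.sum_apply] at h1
  rw [Finset.sum_eq_single l] at h1
  · have h2 : (dd δ l) (l, (δ l).1.1) = 1 := by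
      have := (δ l).2
      simp [dd, this]
    simpa [h2] using h1
  · intro l' _ hl'
    have h2 : (dd δ l') (l, (δ l).1.1) = 0 := by
      simp [dd, Ne.symm hl']
    simp [h2]
  · intro hl
    exact absurd (Finset.mem_univ l) hl

lemma z0_ne {L h : ℕ} (hL : 0 < L) (δ : Dl L h) : z0 δ ≠ 0 := by
  classical
  intro h0
  unfold z0 at h0
  rw [Submodule.mkQ_apply, Submodule.Quotient.mk_eq_zero] at h0
  obtain ⟨c, hc, hc2⟩ := h0
  have hd : ∀ δ' : Dl L h, dd δ' (⟨0, hL⟩ : Fin L) ≠ 0 := fun δ' => (dd_li δ').ne_zero _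
  have : c = Pi.single δ 1 := by
    funext δ'
    have h1 := congrFun hc2 (δ', ⟨0, hL⟩)
    simp only [Phi, LinearMap.coe_mk, AddHom.coe_mk] at h1
    exact smul_left_injective k3 (hd δ') h1
  rw [this] at hc
  have hc' : sumL L h (Pi.single δ 1) = 0 := hc
  rw [sumL_apply] at hc'
  simp at hc'

lemma mm_inj (L h : ℕ) : TInj (mm L h) L := by
  classical
  intro r hr u hu v hv
  have h1 : ∑ i, mm L h (u i) (v i) = (RR L h).mkQ (fun x => ∑ i, v i x • u i) := by
    simp only [mm_apply]
    rw [← map_sum]
    congr 1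
    funext x
    simp
  rw [h1, Submodule.mkQ_apply, Submodule.Quotient.mk_eq_zero] at hv
  obtain ⟨c, -, hc2⟩ := hv
  have hx : ∀ x : Dl L h × Fin L, c x.1 • dd x.1 x.2 = ∑ i, v i x • u i := by
    intro x
    exact congrFun hc2 x
  have hc0 : ∀ δ, c δ = 0 := by
    intro δ
    by_contra hne
    have hmem : ∀ l, dd δ l ∈ Submodule.span k3 (Set.range u) := by
      intro l
      have h2 : dd δ l = (c δ)⁻¹ • ∑ i, v i (δ, l) • u i := by
        rw [← hx (δ, l), smul_smul, inv_mul_cancel₀ hne, one_smul]
      rw [h2]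
      refine Submodule.smul_mem _ _ (Submodule.sum_mem _ ?_)
      intro i _
      exact Submodule.smul_mem _ _ (Submodule.subset_span ⟨i, rfl⟩)
    have hfin : FiniteDimensional k3 (Submodule.span k3 (Set.range u)) :=
      FiniteDimensional.span_of_finite k3 (Set.finite_range _)
    have hli : LinearIndependent k3
        (fun l => (⟨dd δ l, hmem l⟩ : Submodule.span k3 (Set.range u))) := by
      apply LinearIndependent.of_comp (Submodule.subtype _)
      exact dd_li δ
    have h3 := hli.fintype_card_le_finrank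
    have h4 : Module.finrank k3 (Submodule.span k3 (Set.range u)) ≤ Fintype.card (Fin r) :=
      finrank_range_le_card (R := k3) u
    simp only [Fintype.card_fin] at h3 h4
    omega
  funext i
  funext x
  have h5 := hx x
  rw [hc0, zero_smul] at h5
  exact (Fintype.linearIndependent_iff.mp hu) (fun i => v i x) h5.symm i

/-- The commutator sum equals the distinguished element. -/
lemma sum_mm {L h : ℕ} (δ : Dl L h) :
    ∑ l, mm L h (dd δ l) (Pi.single (δ, l) 1) = z0 δ := by
  classical
  simp only [mm_apply]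
  rw [← map_sum]
  unfold z0
  congr 1
  funext x
  obtain ⟨δ', l'⟩ := x
  rw [Finset.sum_apply]
  simp only [Phi, LinearMap.coe_mk, AddHom.coe_mk]
  by_cases hδ : δ' = δ
  · subst hδ
    rw [Finset.sum_eq_single l']
    · simp
    · intro l _ hl
      simp [Ne.symm hl]
    · intro hl
      exact absurd (Finset.mem_univ _) hl
  · rw [Pi.single_eq_of_ne hδ, zero_smul]
    apply Finset.sum_eq_zero
    intro l _
    simp [hδ]

end Pool.Agent.W499.Levi
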