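import Mathlib
import Pool.Agent.W499.Levi.Model

set_option autoImplicit false

namespace Pool.Agent.W499.Levi

open Finset

/-- The variables. -/
abbrev XX (L h : ℕ) : Type := (Fin L × Fin h) ⊕ (Dl L h × Fin L)

/-- The commutator `g h g⁻¹ h⁻¹`. -/
def cm {K : Type} [Group K] (g h : K) : K := g * h * g⁻¹ * h⁻¹

/-- The word attached to a choice `δ`. -/
def WW {L h : ℕ} {K : Type} [Group K] (y : Fin L × Fin h → K) (w : Dl L h × Fin L → K)
    (δ : Dl L h) : K :=
  ((List.finRange L).map fun l =>
    cm (y (l, (δ l).1.1) * (y (l, (δ l).1.2))⁻¹) (w (δ, l))).prod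

lemma WW_map {L h : ℕ} {K K' : Type} [Group K] [Group K'] (φ : K →* K')
    (y : Fin L × Fin h → K) (w : Dl L h × Fin L → K) (δ : Dl L h) :
    φ (WW y w δ) = WW (fun i => φ (y i)) (fun i => φ (w i)) δ := by
  unfold WW
  rw [map_list_prod, List.map_map]
  congr 1
  apply List.map_congr_left
  intro l _
  simp [cm]

/-- The premises of the quasi-identity. -/
noncomputable def premQ (L h : ℕ) (δ0 : Dl L h) :
    List (FreeGroup (Fin (Fintype.card (XX L h)))) :=
  (Finset.univ : Finset (Dl L h)).toList.map fun δ =>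
    WW (fun i => FreeGroup.of (Fintype.equivFin (XX L h) (Sum.inl i)))
      (fun i => FreeGroup.of (Fintype.equivFin (XX L h) (Sum.inr i))) δ *
    (WW (fun i => FreeGroup.of (Fintype.equivFin (XX L h) (Sum.inl i)))
      (fun i => FreeGroup.of (Fintype.equivFin (XX L h) (Sum.inr i))) δ0)⁻¹

/-- The conclusion of the quasi-identity. -/
noncomputable def conclQ (L h : ℕ) (δ0 : Dl L h) : FreeGroup (Fin (Fintype.card (XX L h))) :=
  WW (fun i => FreeGroup.of (Fintype.equivFin (XX L h) (Sum.inl i)))
      (fun i => FreeGroup.of (Fintype.equivFin (XX L h) (Sum.inr i))) δ0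

/-- The quasi-identity holds in groups with less than `h` elements. -/
lemma holds_small (L h : ℕ) (δ0 : Dl L h) (K : Type) [Group K] [Finite K]
    (hK : Nat.card K < h) : QHolds K (Fintype.card (XX L h)) (premQ L h δ0) (conclQ L h δ0) := by
  classical
  intro f hf
  have hpig : ∀ l : Fin L, ∃ p : Pr h,
      f (Fintype.equivFin (XX L h) (Sum.inl (l, p.1.1)))
        = f (Fintype.equivFin (XX L h) (Sum.inl (l, p.1.2))) := by
    intro l
    have hnot : ¬ Function.Injective
        (fun i : Fin h => f (Fintype.equivFin (XX L h) (Sum.inl (l, i)))) := by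
      intro hinj
      have := Nat.card_le_card_of_injective _ hinj
      simp at this
      omega
    simp only [Function.Injective] at hnot
    push Not at hnot
    obtain ⟨i, j, hij, hne⟩ := hnot
    exact ⟨⟨(i, j), hne⟩, hij⟩
  choose δ hδ using hpig
  have h1 := hf _ (List.mem_map_of_mem (Finset.mem_toList.mpr (Finset.mem_univ δ)))
  have h2 : FreeGroup.lift f (WW (fun i => FreeGroup.of (Fintype.equivFin (XX L h) (Sum.inl i)))
      (fun i => FreeGroup.of (Fintype.equivFin (XX L h) (Sum.inr i))) δ) = 1 := by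
    rw [WW_map]
    unfold WW
    apply List.prod_eq_one
    intro x hx
    rw [List.mem_map] at hx
    obtain ⟨l, -, rfl⟩ := hx
    simp only [FreeGroup.lift_apply_of]
    rw [hδ l]
    simp [cm]
  rw [map_mul, h2, one_mul, map_inv, inv_eq_one] at h1
  exact h1

variable {L h : ℕ}

/-- The element with components `(a, b, z, 1)`. -/
def el (a : AA L h) (b : BB L h) (z : ZZ L h) : MG (mm L h) := ⟨a, b, z, 1⟩

/-- The involution. -/
def inv0 (L h : ℕ) : MG (mm L h) := ⟨0, 0, 0, -1⟩

lemma three {V : Type} [AddCommGroup V] [Module k3 V] (v : V) : v + v = -v := by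
  have h1 : (1 + 1 : k3) = -1 := by decide
  calc v + v = (1 + 1 : k3) • v := by rw [add_smul, one_smul]
    _ = -v := by rw [h1, neg_smul, one_smul]

lemma el_mem (a : AA L h) (b : BB L h) :
    el a b (-(mm L h a b)) ∈ Subgroup.normalClosure ({inv0 L h} : Set (MG (mm L h))) := by
  have h1 : inv0 L h ∈ Subgroup.normalClosure ({inv0 L h} : Set (MG (mm L h))) :=
    Subgroup.subset_normalClosure rfl
  have h2 : el (-a) (-b) 0 * inv0 L h * (el (-a) (-b) 0)⁻¹ ∈
      Subgroup.normalClosure ({inv0 L h} : Set (MG (mm L h))) :=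
    Subgroup.normalClosure_normal.conj_mem _ h1 _
  have h3 := Subgroup.mul_mem _ h2 h1
  have h4 : el (-a) (-b) 0 * inv0 L h * (el (-a) (-b) 0)⁻¹ * inv0 L h
      = el a b (-(mm L h a b)) := by
    apply MG.ext
    · simp only [MG.mul_a, MG.inv_a, MG.inv_e, el, inv0, inv_one, one_smul, zero_add, neg_neg,
        smul_neg, Units.neg_smul, smul_zero, neg_zero, add_zero]
      rw [three a, neg_neg]
    · simp only [MG.mul_b, MG.mul_e, MG.inv_b, MG.inv_e, el, inv0, inv_one, one_smul, one_mul,
        neg_neg, smul_neg, Units.neg_smul, smul_zero, neg_zero, add_zero, mul_one]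
      rw [← neg_add, three b, neg_neg]
    · simp only [MG.mul_z, MG.mul_a, MG.inv_z, MG.inv_b, MG.inv_e, el, inv0, inv_one, one_smul,
        zero_add, neg_neg, smul_neg, Units.neg_smul, smul_zero, neg_zero, add_zero, map_zero,
        map_neg, LinearMap.neg_apply]
      exact three _
    · simp [el, inv0]
  rwa [h4] at h3

lemma el_mul (a a' : AA L h) (b b' : BB L h) (z z' : ZZ L h) :
    el a b z * el a' b' z' = el (a' + a) (b + b') (z + z' + mm L h a b') := by
  apply MG.ext <;> simp [el]

lemma el_inv (a : AA L h) (b : BB L h) (z : ZZ L h) :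
    (el a b z)⁻¹ = el (-a) (-b) (-z + mm L h a b) := by
  apply MG.ext <;> simp [el]

lemma cm_el (a : AA L h) (b : BB L h) :
    cm (el a 0 0) (el 0 b 0) = el 0 0 (mm L h a b) := by
  unfold cm
  simp only [el_mul, el_inv]
  apply MG.ext <;> simp [el]

lemma diff_el (a a' : AA L h) : el a (0 : BB L h) 0 * (el a' 0 0)⁻¹ = el (a - a') 0 0 := by
  rw [el_inv, el_mul]
  apply MG.ext
  · simp [el, sub_eq_neg_add]
  · simp [el]
  · simp [el]
  · simp [el]

lemma prod_el (s : List (Fin L)) (c : Fin L → ZZ L h) :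
    (s.map fun l => el (0 : AA L h) (0 : BB L h) (c l)).prod = el 0 0 (s.map c).sum := by
  induction s with
  | nil => rfl
  | cons x s ih =>
    rw [List.map_cons, List.prod_cons, ih, el_mul, List.map_cons, List.sum_cons]
    simp

/-- The value of the word on the standard elements. -/
lemma WW_val (δ : Dl L h) :
    WW (fun i => el (Pi.single i 1 : AA L h) (0 : BB L h) 0)
      (fun i => el (0 : AA L h) (Pi.single i 1 : BB L h) 0) δ = el 0 0 (z0 δ) := by
  classical
  unfold WW
  simp only [diff_el, cm_el]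
  rw [prod_el, ← sum_mm, Fin.sum_univ_def]
  rfl

/-- The group `MG (mm L h)` is not in the Levi class of the quasivariety generated by a group with
less than `h` elements. -/
lemma not_levi (L h : ℕ) (hL : 0 < L) (H : Type) [Group H] [Finite H] (hH : Nat.card H < h)
    (δ0 : Dl L h) : ¬ InLevi H (MG (mm L h)) := by
  classical
  intro hlev
  have h1 := hlev (inv0 L h) _ _ _ (holds_small L h δ0 H hH)
  have hy : ∀ i : Fin L × Fin h, el (Pi.single i 1 : AA L h) (0 : BB L h) 0 ∈
      Subgroup.normalClosure ({inv0 L h} : Set (MG (mm L h))) := by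
    intro i
    have := el_mem (Pi.single i 1 : AA L h) (0 : BB L h)
    simpa using this
  have hw : ∀ i : Dl L h × Fin L, el (0 : AA L h) (Pi.single i 1 : BB L h) 0 ∈
      Subgroup.normalClosure ({inv0 L h} : Set (MG (mm L h))) := by
    intro i
    have := el_mem (0 : AA L h) (Pi.single i 1 : BB L h)
    simpa using this
  let F : XX L h → Subgroup.normalClosure ({inv0 L h} : Set (MG (mm L h))) :=
    Sum.elim (fun i => ⟨_, hy i⟩) (fun i => ⟨_, hw i⟩)
  let f := fun j => F ((Fintype.equivFin (XX L h)).symm j)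
  have hval : ∀ δ, ((FreeGroup.lift f
      (WW (fun i => FreeGroup.of (Fintype.equivFin (XX L h) (Sum.inl i)))
      (fun i => FreeGroup.of (Fintype.equivFin (XX L h) (Sum.inr i))) δ) :
        Subgroup.normalClosure ({inv0 L h} : Set (MG (mm L h)))) : MG (mm L h))
        = el 0 0 (z0 δ) := by
    intro δ
    rw [WW_map, ← Subgroup.coe_subtype, WW_map, ← WW_val]
    simp [f, F]
  have h2 := h1 f ?_
  · have h3 := congrArg (Subtype.val) h2
    unfold conclQ at h3
    rw [hval] at h3
    exact z0_ne hL δ0 (congrArg MG.z h3)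
  · intro p hp
    unfold premQ at hp
    rw [List.mem_map] at hp
    obtain ⟨δ, -, rfl⟩ := hp
    rw [map_mul, map_inv, mul_inv_eq_one]
    apply Subtype.ext
    rw [hval, hval, z0_eq δ δ0]

end Pool.Agent.W499.Levi
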