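import Mathlib
import Pool.Agent.W499.Levi.Defs

set_option autoImplicit false

namespace Pool.Agent.W499.Levi

open Filter FirstOrder

section

variable (M : ℕ → Type) [∀ i, Group (M i)] (u : Ultrafilter ℕ)

/-- The ultraproduct of groups is a group. -/
noncomputable instance prodGroup : Group ((u : Filter ℕ).Product M) where
  mul := Quotient.map₂ (fun x y i => x i * y i) (by
    intro x x' hx y y' hy
    filter_upwards [hx, hy] with i h1 h2
    rw [h1, h2])
  one := Quotient.mk _ (fun _ => 1)
  inv := Quotient.map (fun x i => (x i)⁻¹) (by
    intro x x' hx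
    filter_upwards [hx] with i h1
    rw [h1])
  mul_assoc := by
    intro x y z
    induction x using Quotient.inductionOn
    induction y using Quotient.inductionOn
    induction z using Quotient.inductionOn
    apply Quotient.sound
    exact Eventually.of_forall fun i => mul_assoc _ _ _
  one_mul := by
    intro x
    induction x using Quotient.inductionOn
    apply Quotient.sound
    exact Eventually.of_forall fun i => one_mul _
  mul_one := by
    intro x
    induction x using Quotient.inductionOn
    apply Quotient.sound
    exact Eventually.of_forall fun i => mul_one _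
  inv_mul_cancel := by
    intro x
    induction x using Quotient.inductionOn
    apply Quotient.sound
    exact Eventually.of_forall fun i => inv_mul_cancel _

/-- The quotient map as a homomorphism. -/
noncomputable def toProd : (∀ i, M i) →* ((u : Filter ℕ).Product M) where
  toFun x := Quotient.mk _ x
  map_one' := rfl
  map_mul' _ _ := rfl

lemma toProd_eq_one (x : ∀ i, M i) : toProd M u x = 1 ↔ ∀ᶠ i in (u : Filter ℕ), x i = 1 := by
  constructor
  · intro h
    exact Quotient.exact h
  · intro h
    exact Quotient.sound h

/-- The structure coming from the group structure on the ultraproduct is the ultraproduct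
structure. -/
lemma str_eq : grpStr ((u : Filter ℕ).Product M) =
    (FirstOrder.Language.Ultraproduct.structure : grpLang.Structure ((u : Filter ℕ).Product M)) := by
  apply FirstOrder.Language.Structure.ext
  · funext n f x
    have hx : ∃ y : Fin n → ∀ i, M i, x = fun j => (Quotient.mk _ (y j)) := by
      choose y hy using fun j => Quotient.exists_rep (x j)
      exact ⟨y, funext fun j => (hy j).symm⟩
    obtain ⟨y, rfl⟩ := hx
    have h2 := FirstOrder.Language.Ultraproduct.funMap_cast (L := grpLang) (M := M) (u := u) f y
    refine Eq.trans ?_ h2.symm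
    cases f
    · rfl
    · rfl
    · rfl
  · funext n r
    exact Empty.elim r

lemma los (φ : grpLang.Sentence) :
    FirstOrder.Language.Sentence.Realize ((u : Filter ℕ).Product M) φ ↔
      ∀ᶠ i in (u : Filter ℕ), FirstOrder.Language.Sentence.Realize (M i) φ := by
  have := FirstOrder.Language.Ultraproduct.sentence_realize (L := grpLang) (M := M) (u := u) φ
  rw [← this]
  unfold FirstOrder.Language.Sentence.Realize
  rw [str_eq]

/-- If quasi-identities of `H` in `n` variables hold in `M i` for all large `i`, then the
ultraproduct is in the quasivariety. -/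
lemma inQ_ultra (H : Type) [Group H] (hu : (u : Filter ℕ) ≤ atTop)
    (hM : ∀ (n : ℕ), ∀ᶠ i in atTop, ∀ (prem : List (FreeGroup (Fin n)))
      (concl : FreeGroup (Fin n)), QHolds H n prem concl → QHolds (M i) n prem concl) :
    InQ H ((u : Filter ℕ).Product M) := by
  intro n prem concl hH f hf
  choose F hF using fun j => Quotient.exists_rep (f j)
  have hlift : ∀ w : FreeGroup (Fin n), FreeGroup.lift f w
      = toProd M u (FreeGroup.lift F w) := by
    intro w
    have : FreeGroup.lift f = (toProd M u).comp (FreeGroup.lift F) := by
      apply FreeGroup.ext_hom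
      intro j
      simp only [FreeGroup.lift_apply_of, MonoidHom.comp_apply]
      exact (hF j).symm
    rw [this]
    rfl
  have hcoord : ∀ (w : FreeGroup (Fin n)) (i : ℕ), (FreeGroup.lift F w) i
      = FreeGroup.lift (fun j => F j i) w := by
    intro w i
    have : (Pi.evalMonoidHom M i).comp (FreeGroup.lift F) = FreeGroup.lift (fun j => F j i) := by
      apply FreeGroup.ext_hom
      intro j
      simp
    exact DFunLike.congr_fun this w
  have h1 : ∀ᶠ i in (u : Filter ℕ), ∀ p ∈ prem, FreeGroup.lift (fun j => F j i) p = 1 := by
    have h2 : ∀ p ∈ prem, ∀ᶠ i in (u : Filter ℕ), FreeGroup.lift (fun j => F j i) p = 1 := by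
      intro p hp
      have h3 := hf p hp
      rw [hlift, toProd_eq_one] at h3
      filter_upwards [h3] with i hi
      rw [← hcoord]
      exact hi
    have h4 := (Filter.eventually_all_finite (l := (u : Filter ℕ)) (I := {p | p ∈ prem})
      (List.finite_toSet prem)
      (p := fun p i => FreeGroup.lift (fun j => F j i) p = 1)).mpr h2
    exact h4
  rw [hlift, toProd_eq_one]
  filter_upwards [h1, hu (hM n)] with i hi1 hi2
  rw [hcoord]
  exact hi2 prem concl hH _ hi1

end

/-- Subgroups of groups in the quasivariety are in the quasivariety. -/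
lemma InQ.sub {H G : Type} [Group H] [Group G] (h : InQ H G) (S : Subgroup G) : InQ H S := by
  intro n prem concl hH f hf
  have hlift : ∀ w : FreeGroup (Fin n), ((FreeGroup.lift f w : S) : G)
      = FreeGroup.lift (fun j => (f j : G)) w := by
    intro w
    have : S.subtype.comp (FreeGroup.lift f) = FreeGroup.lift (fun j => (f j : G)) := by
      apply FreeGroup.ext_hom
      intro j
      simp
    exact DFunLike.congr_fun this w
  apply Subtype.ext
  rw [hlift]
  apply h n prem concl hH
  intro p hp
  rw [← hlift, hf p hp]
  rfl

/-- Criterion: no finite axiomatization. -/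
theorem not_leviFinAx (H : Type) [Group H] (M : ℕ → Type) [∀ i, Group (M i)]
    (hM : ∀ (n : ℕ), ∀ᶠ i in atTop, ∀ (prem : List (FreeGroup (Fin n)))
      (concl : FreeGroup (Fin n)), QHolds H n prem concl → QHolds (M i) n prem concl)
    (hN : ∀ i, ¬ InLevi H (M i)) : ¬ LeviFinAx H := by
  rintro ⟨T, hT, hax⟩
  let u : Ultrafilter ℕ := Filter.hyperfilter ℕ
  have hu : (u : Filter ℕ) ≤ atTop := by
    rw [← Nat.cofinite_eq_atTop]
    exact Filter.hyperfilter_le_cofinite
  have h1 : InLevi H ((u : Filter ℕ).Product M) := fun a => (inQ_ultra M u H hu hM).sub _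
  have h2 := (hax ((u : Filter ℕ).Product M)).mpr h1
  have h3 : ∀ᶠ i in (u : Filter ℕ), ∀ φ ∈ T, FirstOrder.Language.Sentence.Realize (M i) φ := by
    refine (Filter.eventually_all_finite (l := (u : Filter ℕ)) hT
      (p := fun φ i => FirstOrder.Language.Sentence.Realize (M i) φ)).mpr ?_
    intro φ hφ
    exact (los M u φ).mp (h2 φ hφ)
  obtain ⟨i, hi⟩ := h3.exists
  exact hN i ((hax (M i)).mp hi)

end Pool.Agent.W499.Levi
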